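import Pool.Agent.W947.CR.Poly
import Pool.Agent.NPC.Dec

/-!
Minimum-width channel routing in the two-layer unrestricted model is NP-hard.
-/

namespace Pool.Agent.Results.MP_bac54a_lc.ChannelWidthNPHard

open Pool.Agent.NPC Pool.Agent.W947.CR

/-- Whether the first component codes a number that is at most the second component. -/
def chk (p : List Bool × ℕ) : Bool :=
  match unbits ℕ p.1 with
  | none => false
  | some v => decide (v ≤ p.2)

theorem poly_chk : NPC.Poly chk :=
  (NPC.Poly.optCases (o := fun p : List Bool × ℕ => unbits ℕ p.1) (g := fun _ => false)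
    (h := fun p v => decide (v ≤ p.2)) (poly_unbits.comp (NPC.Poly.fst NPC.Poly.id))
    (NPC.Poly.const _) (NPC.Poly.decide_le (NPC.Poly.snd NPC.Poly.id)
      (NPC.Poly.snd (NPC.Poly.fst NPC.Poly.id)))).congr fun p => by
    unfold chk
    cases unbits ℕ p.1 <;> rfl

/-- Deciding whether the minimum width of a channel routing problem in the two-layer unrestricted
model is at most a given number is NP-hard, even for dense problems: for every language `L` in NP
there is a polynomial-time computable `f` producing legal and dense problems with a number such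
that `x ∈ L` if and only if the problem has a layout of at most that width. In particular, if the
minimum width can be computed in polynomial time, then P = NP. -/
theorem result :
    (∀ L : Set (List Bool), InNP L → ∃ f : List Bool → CRP × ℕ, PolyTime (fun x => bits (f x)) ∧
      (∀ x, Legal (f x).1 ∧ Dense (f x).1) ∧ ∀ x, x ∈ L ↔ ∃ w ≤ (f x).2, HasLayout (f x).1 w) ∧
    NPHardP WidthAtMost ∧
    ((∃ (W : CRP → ℕ) (g : List Bool → List Bool), PolyTime g ∧
      ∀ C, Legal C → IsLeast {w | HasLayout C w} (W C) ∧ g (bits C) = bits (W C)) →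
      ∀ L : Set (List Bool), InNP L → InP L) := by
  have hard : HardPr (fun I : CRP × ℕ => Legal I.1 ∧ Dense I.1) WidthAtMost :=
    hardPr_SAT3b.trans poly_red (fun φ h => ⟨red_legal φ, red_dense h.1 h.2.1⟩) (fun φ h => by
      rw [red_correct h.1 h.2.1]
      exact ⟨fun h1 => ⟨red_legal φ, h1⟩, fun h1 => h1.2⟩)
  refine ⟨?_, hard.toHardI.toNPHardP, ?_⟩
  · intro L hL
    obtain ⟨f, hf, hpr, hfL⟩ := hard L hL
    refine ⟨f, PC.toPolyTime hf, hpr, fun x => ?_⟩
    rw [hfL x]
    exact ⟨fun h => h.2, fun h => ⟨(hpr x).1, h⟩⟩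
  · rintro ⟨W, g, hg, hW⟩ L hL
    obtain ⟨f, hf, hpr, hfL⟩ := hard L hL
    have hg1 : PC (fun x : List Bool => x) (fun x : List Bool => x) g :=
      Pool.Agent.H642R2.TMSim.polyTime_toPC hg
    have hf1 : PC (fun x : List Bool => x) (fun x : List Bool => x) (fun x => bits (f x).1) :=
      PC.comp (ea := fun x : List Bool => x) (eb := (bits : CRP × ℕ → List Bool))
        (ec := (bits : CRP → List Bool)) (g := fun I => I.1) (NPC.Poly.fst NPC.Poly.id) hf
    have hf2 : PC (fun x : List Bool => x) (bits : ℕ → List Bool) (fun x => (f x).2) :=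
      PC.comp (g := fun I : CRP × ℕ => I.2) (NPC.Poly.snd NPC.Poly.id) hf
    have h1 : PC (fun x : List Bool => x) (bits : List Bool → List Bool)
        (fun x => g (bits (f x).1)) :=
      PC.comp (g := fun x => x) PC.rawIn (PC.comp (g := g) hg1 hf1)
    have h2 : PC (fun x : List Bool => x) (bits : List Bool × ℕ → List Bool)
        (fun x => (g (bits (f x).1), (f x).2)) :=
      PC.node (f := fun x => toT (g (bits (f x).1))) (g := fun x => toT (f x).2) h1 hf2
    have h4 : PC (fun x : List Bool => x) (bits : Bool → List Bool)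
        (fun x => chk (g (bits (f x).1), (f x).2)) := PC.comp poly_chk h2
    refine ⟨fun x => [chk (g (bits (f x).1), (f x).2)],
      PC.toPolyTime (PC.comp (g := fun b => [b]) PC.rawBool h4), fun x => ?_⟩
    obtain ⟨⟨hm, hle⟩, hgb⟩ := hW (f x).1 (hpr x).1
    rw [hfL x]
    simp only [chk, hgb, unbits_bits, List.cons.injEq, and_true, decide_eq_true_eq]
    constructor
    · rintro ⟨_, w, hw, hl⟩
      exact (hle hl).trans hw
    · intro h
      exact ⟨(hpr x).1, W (f x).1, h, hm⟩

end Pool.Agent.Results.MP_bac54a_lc.ChannelWidthNPHard
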